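import Mathlib
import Pool.Agent.W463.CI.Stm2

/-! Project CI (helper463): finitely generated projective modules over a finite-dimensional
algebra are determined by the dimensions of the spaces of homomorphisms. -/

set_option autoImplicit false

namespace Pool.Agent.W320.CI

open Module

universe u v w

section

variable {F : Type u} [Field F] {A : Type v} [Ring A] [Algebra F A]

theorem fin_hom {M N : Type*} [AddCommGroup M] [Module F M] [Module A M] [IsScalarTower F A M]
    [AddCommGroup N] [Module F N] [Module A N] [IsScalarTower F A N]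
    [Module.Finite F M] [Module.Finite F N] : Module.Finite F (M →ₗ[A] N) := by
  apply Module.Finite.of_injective (LinearMap.restrictScalarsₗ F A M N F)
  intro f g h
  ext x
  exact LinearMap.congr_fun h x

/-- precomposition as a linear map over the field -/
def pre {M N S : Type*} [AddCommGroup M] [Module F M] [Module A M] [IsScalarTower F A M]
    [AddCommGroup N] [Module F N] [Module A N] [IsScalarTower F A N]
    [AddCommGroup S] [Module F S] [Module A S] [IsScalarTower F A S]
    (g : M →ₗ[A] N) : (N →ₗ[A] S) →ₗ[F] (M →ₗ[A] S) where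
  toFun k := k.comp g
  map_add' _ _ := rfl
  map_smul' _ _ := rfl

theorem exists_surj {P : Type w} {N : Type w} [AddCommGroup P] [Module F P] [Module A P]
    [IsScalarTower F A P] [AddCommGroup N] [Module F N] [Module A N] [IsScalarTower F A N]
    [Module.Finite F P] [Module.Finite F N] [IsSemisimpleModule A N]
    (h : ∀ M0 : Submodule A N, IsCoatom M0 →
      finrank F (N →ₗ[A] (N ⧸ M0)) ≤ finrank F (P →ₗ[A] (N ⧸ M0))) :
    ∃ g : P →ₗ[A] N, Function.Surjective g := by
  haveI : IsNoetherian A N := isNoetherian_of_tower F inferInstance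
  obtain ⟨_, ⟨g, rfl⟩, hg⟩ := (wellFounded_gt (α := Submodule A N)).has_min
    (Set.range fun g : P →ₗ[A] N => LinearMap.range g) ⟨_, 0, rfl⟩
  refine ⟨g, LinearMap.range_eq_top.1 ?_⟩
  by_contra hne
  obtain ⟨M0, hM0, hle⟩ := (eq_top_or_exists_le_coatom (LinearMap.range g)).resolve_left hne
  haveI : IsSimpleModule A (N ⧸ M0) := isSimpleModule_iff_isCoatom.2 hM0
  haveI : Module.Finite F (N →ₗ[A] (N ⧸ M0)) := fin_hom
  haveI : Module.Finite F (P →ₗ[A] (N ⧸ M0)) := fin_hom
  have hne0 : M0.mkQ ≠ 0 := by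
    intro h0
    have : LinearMap.ker M0.mkQ = ⊤ := by rw [h0]; exact LinearMap.ker_zero
    rw [Submodule.ker_mkQ] at this
    exact hM0.1 this
  have hrange : LinearMap.range (pre (F := F) (S := N ⧸ M0) g) ≠ ⊤ := by
    intro htop
    have h1 := LinearMap.finrank_range_add_finrank_ker (pre (F := F) (S := N ⧸ M0) g)
    rw [htop, finrank_top] at h1
    have h2 : 1 ≤ finrank F (LinearMap.ker (pre (F := F) (S := N ⧸ M0) g)) := by
      rw [Submodule.one_le_finrank_iff]
      intro hbot
      have h3 : M0.mkQ ∈ LinearMap.ker (pre (F := F) (S := N ⧸ M0) g) := by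
        rw [LinearMap.mem_ker]
        ext x
        show M0.mkQ (g x) = 0
        rw [Submodule.mkQ_apply, Submodule.Quotient.mk_eq_zero]
        exact hle ⟨x, rfl⟩
      rw [hbot] at h3
      exact hne0 ((Submodule.mem_bot F).1 h3)
    have := h M0 hM0
    omega
  obtain ⟨h0, hh0⟩ : ∃ h0 : P →ₗ[A] (N ⧸ M0), h0 ∉ LinearMap.range (pre (F := F) g) := by
    by_contra hcon
    push Not at hcon
    exact hrange (Submodule.eq_top_iff'.2 hcon)
  have hx : ∃ x, g x = 0 ∧ h0 x ≠ 0 := by
    by_contra hcon
    push Not at hcon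
    apply hh0
    have hk : LinearMap.ker g ≤ LinearMap.ker h0 := fun x hx => hcon x hx
    obtain ⟨C, hC⟩ := exists_isCompl (LinearMap.range g)
    refine ⟨((LinearMap.ker g).liftQ h0 hk ∘ₗ g.quotKerEquivRange.symm.toLinearMap) ∘ₗ
      Submodule.linearProjOfIsCompl (LinearMap.range g) C hC, ?_⟩
    ext x
    show (LinearMap.ker g).liftQ h0 hk (g.quotKerEquivRange.symm
      (Submodule.linearProjOfIsCompl (LinearMap.range g) C hC (g x))) = h0 x
    have e1 : Submodule.linearProjOfIsCompl (LinearMap.range g) C hC (g x) =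
        ⟨g x, x, rfl⟩ :=
      Submodule.linearProjOfIsCompl_apply_left hC ⟨g x, x, rfl⟩
    have e2 : g.quotKerEquivRange.symm ⟨g x, x, rfl⟩ = (LinearMap.ker g).mkQ x := by
      rw [LinearEquiv.symm_apply_eq]
      rfl
    rw [e1, e2]
    rfl
  obtain ⟨S', hS'⟩ := exists_isCompl M0
  obtain ⟨x0, hx0, hx0'⟩ := hx
  set ι : (N ⧸ M0) →ₗ[A] N :=
    S'.subtype ∘ₗ (Submodule.quotientEquivOfIsCompl M0 S' hS').toLinearMap with hι
  have hιS : ∀ s, ι s ∈ S' := fun s => (Submodule.quotientEquivOfIsCompl M0 S' hS' s).2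
  have hιinj : ∀ s, ι s = 0 → s = 0 := by
    intro s hs
    have h1 : (Submodule.quotientEquivOfIsCompl M0 S' hS') s = 0 := Subtype.ext hs
    simpa using h1
  have hmap : (LinearMap.ker g).map h0 = ⊤ := by
    rcases eq_bot_or_eq_top ((LinearMap.ker g).map h0) with h1 | h1
    · exfalso
      apply hx0'
      have : h0 x0 ∈ (LinearMap.ker g).map h0 := ⟨x0, hx0, rfl⟩
      rw [h1] at this
      exact (Submodule.mem_bot A).1 this
    · exact h1
  have hιle : ∀ s, ι s ∈ LinearMap.range (g + ι ∘ₗ h0) := by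
    intro s
    have : s ∈ (LinearMap.ker g).map h0 := by rw [hmap]; trivial
    obtain ⟨x, hx, rfl⟩ := this
    refine ⟨x, ?_⟩
    show g x + ι (h0 x) = ι (h0 x)
    rw [show g x = 0 from hx, zero_add]
  apply hg (LinearMap.range (g + ι ∘ₗ h0)) ⟨_, rfl⟩
  show LinearMap.range g < LinearMap.range (g + ι ∘ₗ h0)
  refine lt_of_le_of_ne ?_ ?_
  · rintro _ ⟨x, rfl⟩
    have h1 : (g + ι ∘ₗ h0) x ∈ LinearMap.range (g + ι ∘ₗ h0) := ⟨x, rfl⟩
    have h2 := Submodule.sub_mem _ h1 (hιle (h0 x))
    have h3 : (g + ι ∘ₗ h0) x - ι (h0 x) = g x := by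
      show g x + ι (h0 x) - ι (h0 x) = g x
      rw [add_sub_cancel_right]
    rwa [h3] at h2
  · intro heq
    apply hx0'
    apply hιinj
    have h1 : ι (h0 x0) ∈ LinearMap.range g := by rw [heq]; exact hιle _
    have h2 : ι (h0 x0) ∈ M0 := hle h1
    exact (Submodule.disjoint_def.1 hS'.disjoint) _ h2 (hιS _)

theorem surj_of_mkQ {P Q : Type w} [AddCommGroup P] [Module A P] [AddCommGroup Q] [Module A Q]
    [Module.Finite A Q] (f : P →ₗ[A] Q)
    (hf : Function.Surjective ((Module.jacobson A Q).mkQ ∘ₗ f)) : Function.Surjective f := by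
  rw [← LinearMap.range_eq_top]
  by_contra hne
  obtain ⟨C, hC, hle⟩ := (eq_top_or_exists_le_coatom (LinearMap.range f)).resolve_left hne
  apply hC.1
  rw [Submodule.eq_top_iff']
  intro q
  obtain ⟨p, hp⟩ := hf ((Module.jacobson A Q).mkQ q)
  have h1 : f p - q ∈ Module.jacobson A Q := by
    rw [← Submodule.Quotient.mk_eq_zero, Submodule.Quotient.mk_sub]
    exact sub_eq_zero.2 hp
  have h2 : Module.jacobson A Q ≤ C := sInf_le hC
  have h3 := Submodule.sub_mem _ (hle ⟨p, rfl⟩) (h2 h1)
  rwa [sub_sub_cancel] at h3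

theorem surj {P Q : Type w} [Module.Finite F A] [AddCommGroup P] [Module F P] [Module A P]
    [IsScalarTower F A P] [AddCommGroup Q] [Module F Q] [Module A Q] [IsScalarTower F A Q]
    [Module.Finite A P] [Module.Finite A Q] [Module.Projective A P]
    (h : ∀ (M : Type w) [AddCommGroup M] [Module F M] [Module A M] [IsScalarTower F A M]
      [Module.Finite F M], finrank F (P →ₗ[A] M) = finrank F (Q →ₗ[A] M)) :
    ∃ f : P →ₗ[A] Q, Function.Surjective f := by
  haveI : Module.Finite F P := Module.Finite.trans A P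
  haveI : Module.Finite F Q := Module.Finite.trans A Q
  haveI : IsArtinianRing A := IsArtinianRing.of_finite F A
  haveI : IsArtinian A Q := inferInstance
  haveI : IsSemisimpleModule A (Q ⧸ Module.jacobson A Q) :=
    (IsArtinian.isSemisimpleModule_iff_jacobson A _).2 (Module.jacobson_quotient_jacobson A Q)
  haveI : Module.Finite F (Q ⧸ Module.jacobson A Q) :=
    Module.Finite.of_surjective ((Module.jacobson A Q).mkQ.restrictScalars F)
      (Submodule.mkQ_surjective _)
  obtain ⟨g, hg⟩ := exists_surj (F := F) (A := A) (P := P) (N := Q ⧸ Module.jacobson A Q) (by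
    intro M0 _
    rw [h]
    haveI : Module.Finite F (Q →ₗ[A] ((Q ⧸ Module.jacobson A Q) ⧸ M0)) := by
      haveI : Module.Finite F ((Q ⧸ Module.jacobson A Q) ⧸ M0) :=
        Module.Finite.of_surjective (M0.mkQ.restrictScalars F) (Submodule.mkQ_surjective _)
      exact fin_hom
    apply LinearMap.finrank_le_finrank_of_injective
      (f := pre (F := F) (S := (Q ⧸ Module.jacobson A Q) ⧸ M0) (Module.jacobson A Q).mkQ)
    intro a b hab
    apply (LinearMap.cancel_right (Submodule.mkQ_surjective (Module.jacobson A Q))).1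
    exact hab)
  obtain ⟨f, hf⟩ := Module.projective_lifting_property (Module.jacobson A Q).mkQ g
    (Submodule.mkQ_surjective _)
  refine ⟨f, surj_of_mkQ f ?_⟩
  rw [hf]
  exact hg

end

theorem af1 : W463.CI.AF1.{u, v, w} := by
  intro F _ A _ _ _ P Q _ _ _ _ _ _ _ _ _ _ _ _ h
  obtain ⟨f, hf⟩ := surj (F := F) (A := A) (P := P) (Q := Q) h
  obtain ⟨g, hg⟩ := surj (F := F) (A := A) (P := Q) (Q := P) (fun M _ _ _ _ _ => (h M).symm)
  haveI : Module.Finite F P := Module.Finite.trans A P
  haveI : Module.Finite F Q := Module.Finite.trans A Q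
  have h1 : finrank F Q ≤ finrank F P :=
    LinearMap.finrank_le_finrank_of_surjective (f := f.restrictScalars F) hf
  have h2 : finrank F P ≤ finrank F Q :=
    LinearMap.finrank_le_finrank_of_surjective (f := g.restrictScalars F) hg
  have h3 : Function.Injective (f.restrictScalars F) :=
    (LinearMap.injective_iff_surjective_of_finrank_eq_finrank (le_antisymm h2 h1)).2 hf
  exact ⟨LinearEquiv.ofBijective f ⟨h3, hf⟩⟩

end Pool.Agent.W320.CI
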